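import Pool.Agent.W5h93.EV.VDefs
import Pool.Agent.W5h93.EU.Many
import Pool.Agent.W5h93.EU.Cls

/-!
# Comparison of the definitions
-/

set_option autoImplicit false

open CategoryTheory AlgebraicGeometry Pool.Agent.Y116.UV

namespace Pool.Agent.W5h93.EV

open Pool.Agent.H914 Pool.Agent.H914.VarClass Pool.Agent.H914.VarClass.Obj

variable {k : Type} [Field k] {δ : Sch k → ℤ → ℤ}

lemma Additive.euler (h : Additive δ) : EU.IsEuler δ where
  iso := h.iso
  additive i j hX ht := h.add i j hX ⟨ht.closed, ht.opened, ht.compl⟩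
  bundle A _ _ _ m f U hU := h.bundle A m f U hU
  bounded := h.bounded
  point := h.point

lemma HasModels.eu {𝒱 : VarClass k} {n : ℕ} (h : HasModels 𝒱 n) : EU.HasModels 𝒱 n :=
  fun A _ _ _ _ d hd hA => h A d hd hA

/-- the form -/
def Form.eu (F : Form k) : EU.Form k := ⟨F.a, F.b, F.d, F.T⟩

/-- the form -/
def ofEu (F : EU.Form k) : Form k := ⟨F.a, F.b, F.d, F.T⟩

lemma blocks_eq {b d b' d' : ℕ} (M : Fin b → Fin d → k) (M' : Fin b' → Fin d' → k) :
    blocks M M' = EU.blockSum M M' := by
  funext j l
  rw [blocks, EU.blockSum]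
  refine Fin.addCases (fun j => ?_) (fun j => ?_) j
  · rw [Fin.addCases_left, Fin.addCases_left]
    rfl
  · rw [Fin.addCases_right, Fin.addCases_right]
    rfl

lemma add_eu (F G : Form k) : (F.add G).eu = F.eu.add G.eu := by
  have h : (F.add G).T = EU.dsum F.T G.T := by
    funext i
    have h1 : (F.add G).T i = Fin.addCases (motive := fun _ => Fin (F.b + G.b) → Fin (F.d + G.d) → k)
      (fun i => blocks (F.T i) fun _ _ => 0) (fun i => blocks (fun _ _ => 0) (G.T i)) i := rfl
    rw [h1, EU.dsum]
    simp only [blocks_eq]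
  change (⟨F.a + G.a, F.b + G.b, F.d + G.d, (F.add G).T⟩ : EU.Form k) = _
  rw [h]
  rfl

lemma sum_eu (F : Form k) (L : List (Form k)) :
    (sumForms F L).eu = EU.sumForms F.eu (L.map Form.eu) := by
  induction L generalizing F with
  | nil => rfl
  | cons G L ih =>
    change (F.add (sumForms G L)).eu = F.eu.add (EU.sumForms G.eu (L.map Form.eu))
    rw [add_eu, ih]

lemma vanishes_iff (N m : ℕ) : Vanishes δ N m ↔ EU.VanishesMany δ N m := by
  constructor
  · intro h F L hF hL hl c
    have h1 := h (ofEu F) (L.map ofEu) hF (by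
      intro G hG
      obtain ⟨G', hG', rfl⟩ := List.mem_map.mp hG
      exact hL G' hG') (by simpa using hl) c
    have h2 : (sumForms (ofEu F) (L.map ofEu)).eu = EU.sumForms F L := by
      rw [sum_eu, List.map_map]
      have : Form.eu ∘ ofEu = (id : EU.Form k → EU.Form k) := rfl
      rw [this, List.map_id]
      rfl
    rw [← h2]
    exact h1
  · intro h F L hF hL hl c
    have h1 := h F.eu (L.map Form.eu) hF (by
      intro G hG
      obtain ⟨G', hG', rfl⟩ := List.mem_map.mp hG
      exact hL G' hG') (by simpa using hl) c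
    rw [← sum_eu] at h1
    exact h1

lemma prodVars_eq {𝒱 : VarClass k} (X : 𝒱.Obj) (L : List 𝒱.Obj) :
    prodVars X L = EU.prodVars X L := by
  induction L generalizing X with
  | nil => rfl
  | cons Y L ih =>
    change X.prod (prodVars Y L) = X.prod (EU.prodVars Y L)
    rw [ih]

/-- **Products of several varieties of dimension at most `n` and sums of several trilinear forms
with a block of at most `n + 2` variables.** -/
theorem products_iff [PerfectField k] {𝒱 : VarClass k} (h : Additive δ) {n N : ℕ}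
    (hM : HasModels 𝒱 n) :
    ForProducts (𝒱 := 𝒱) (fun X => ∀ c, δ (sch X.V) c = 0) N n ↔ Vanishes δ N (n + 2) := by
  rw [vanishes_iff, ← EU.many_products h.euler hM.eu]
  refine forall_congr' fun X => forall_congr' fun L => ?_
  rw [prodVars_eq]
  rfl

/-- **All varieties.** -/
theorem all_iff [PerfectField k] {𝒱 : VarClass k} (h : Additive δ) (hM : ∀ n, HasModels 𝒱 n) :
    (∀ (X : 𝒱.Obj) (c : ℤ), δ (sch X.V) c = 0) ↔ VanishesAll δ := by
  refine (EU.all_iff h.euler fun n => (hM n).eu).trans ?_
  constructor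
  · intro h0 F
    exact h0 F.a F.b F.d F.T
  · intro h0 a b d T
    exact h0 ⟨a, b, d, T⟩

end Pool.Agent.W5h93.EV
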