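import Pool.Agent.Y116.UV.Defs

/-!
# Additive invariants of schemes: definitions
-/

set_option autoImplicit false

open CategoryTheory AlgebraicGeometry Pool.Agent.Y116.UV

namespace Pool.Agent.W5h93.EV

variable {k : Type} [Field k]

/-- `i` is a closed immersion. -/
def IsClo {Z X : Sch k} (i : Z ⟶ X) : Prop := IsClosedImmersion i.left

/-- `j` is an open immersion. -/
def IsOpn {U X : Sch k} (j : U ⟶ X) : Prop := IsOpenImmersion j.left

/-- The image of the underlying map of topological spaces. -/
def img {X Y : Sch k} (f : X ⟶ Y) : Set Y.left := Set.range f.left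

/-- `i` is a closed immersion and `j` is an open immersion onto the complement of its image. -/
def Decomp {Z X U : Sch k} (i : Z ⟶ X) (j : U ⟶ X) : Prop := IsClo i ∧ IsOpn j ∧ img i = (img j)ᶜ

/-- The open subset of `Spec A` where the functions `f` are not all zero. -/
def nonzero {A : Type} [CommRing A] [Algebra k A] {m : ℕ} (f : Fin m → A) : Set (aff k A).left :=
  {x : PrimeSpectrum A | ∃ l, f l ∉ x.asIdeal}

/-- `U` is the complement of the closed subscheme `f = 0` of `Spec A`. -/
def Compl {A : Type} [CommRing A] [Algebra k A] {m : ℕ} (f : Fin m → A) (U : Sch k) : Prop :=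
  ∃ j : U ⟶ aff k A, IsOpn j ∧ img j = nonzero f

/-- `δ X : ℤ → ℤ` are the coefficients of an invariant of the separated schemes `X` of finite type
over `k` with values in the Laurent polynomials `∑ δ X c L ^ c`, which is additive for closed-open
decompositions and compatible with affine bundles: the invariant of the total space of the affine
bundle `Spec A[w_1, …, w_m] / (∑ f_l w_l - 1) → U` with fibre `𝔸^(m-1)`, where `U` is the complement
of `f = 0` in `Spec A`, is `L ^ (m - 1)` times the invariant of `U`. The invariant of the point is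
zero. -/
structure Additive (δ : Sch k → ℤ → ℤ) : Prop where
  iso : ∀ {X Y : Sch k}, FT True X → Nonempty (X ≅ Y) → δ X = δ Y
  add : ∀ {Z X U : Sch k} (i : Z ⟶ X) (j : U ⟶ X), FT True X → Decomp i j →
    ∀ c, δ X c = δ Z c + δ U c
  bundle : ∀ (A : Type) [CommRing A] [Algebra k A] [Algebra.FiniteType k A] (m : ℕ)
    (f : Fin m → A) (U : Sch k), Compl f U → ∀ c, δ (aff k (Jou f)) c = δ U (c - (m - 1))
  bounded : ∀ X : Sch k, FT True X → ∃ b : ℤ, ∀ c, c < b → δ X c = 0
  point : ∀ c, δ (aff k k) c = 0

/-- Some non-empty open subschemes of `Y` and `Y'` are isomorphic. -/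
def Birational (Y Y' : Sch k) : Prop :=
  ∃ (V : Sch k) (i : V ⟶ Y) (j : V ⟶ Y'), Nonempty V.left ∧ IsOpn i ∧ IsOpn j

/-- A trilinear form over `k` in three blocks of `a`, `b`, `d` variables, given by its coefficients. -/
structure Form (k : Type) [Field k] where
  /-- the number of variables in the first block -/
  a : ℕ
  /-- the number of variables in the second block -/
  b : ℕ
  /-- the number of variables in the third block -/
  d : ℕ
  /-- the coefficients -/
  T : Fin a → Fin b → Fin d → k

/-- The hypersurface `T(x, y, z) = 1`. -/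
noncomputable def Form.hyp (F : Form k) : Sch k := hypS F.T

/-- The form has a block of at most `m` variables. -/
def Form.Small (m : ℕ) (F : Form k) : Prop := F.a ≤ m ∨ F.b ≤ m ∨ F.d ≤ m

/-- A matrix with the blocks `M` and `M'` on the diagonal. -/
def blocks {b d b' d' : ℕ} (M : Fin b → Fin d → k) (M' : Fin b' → Fin d' → k) :
    Fin (b + b') → Fin (d + d') → k :=
  fun j => Fin.addCases (fun j => Fin.append (M j) fun _ => 0)
    (fun j => Fin.append (fun _ => 0) (M' j)) j

/-- The direct sum of two trilinear forms, in disjoint sets of variables. -/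
def Form.add (F G : Form k) : Form k :=
  ⟨F.a + G.a, F.b + G.b, F.d + G.d,
    fun i => Fin.addCases (fun i => blocks (F.T i) fun _ _ => 0) (fun i => blocks (fun _ _ => 0) (G.T i)) i⟩

/-- The direct sum `T_0 + ⋯ + T_r` of the form `T_0 = F` and the forms in the list `T_1, …, T_r`. -/
def sumForms : Form k → List (Form k) → Form k
  | F, [] => F
  | F, G :: L => F.add (sumForms G L)

/-- `δ` vanishes for the hypersurfaces `T_0 + ⋯ + T_r = 1`, `r ≤ N`, for all trilinear forms `T_i` over
`k` in disjoint sets of variables, each of which has a block of at most `m` variables. -/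
def Vanishes (δ : Sch k → ℤ → ℤ) (N m : ℕ) : Prop :=
  ∀ (F : Form k) (L : List (Form k)), F.Small m → (∀ G ∈ L, G.Small m) → L.length ≤ N →
    ∀ c, δ (sumForms F L).hyp c = 0

/-- `δ` vanishes for the hypersurfaces `T = 1` of all trilinear forms `T` over `k`. -/
def VanishesAll (δ : Sch k → ℤ → ℤ) : Prop := ∀ (F : Form k) (c : ℤ), δ F.hyp c = 0

end Pool.Agent.W5h93.EV
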