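import Pool.Agent.W5h93.EV.VDefs
import Pool.Agent.Y133.Half.PerDefs

/-!
# The numbers of de Rham-Betti classes: definitions
-/

set_option autoImplicit false

open CategoryTheory AlgebraicGeometry Pool.Agent.Y116.UV

universe v

namespace Pool.Agent.W5h93.EV

open Pool.Agent.H914 Pool.Agent.H914.VarClass Pool.Agent.H914.VarClass.Obj
  Pool.Agent.H914.WeilCohomology Pool.Agent.Y133.Per
open Pool.Agent.Y133.Half (dimOf)

variable {k : Type} [Field k] {𝒱 : VarClass k} {ops : CycleOps 𝒱}
  {W : WeilCohomology.{0, v} ops} [Algebra W.K ℂ] {F : Subfield ℂ}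

/-- `δ` is the additive invariant whose value at the variety `X` of the class has the coefficients
`dim H_Gr^(2 q)(X) - rank A^q(X)`, `q ≥ 0`, where `H_Gr^(2 q)(X)` is the space of the de Rham-Betti
classes and `A^q(X)` is the space of the algebraic classes of codimension `q`. (For the smooth
projective varieties in characteristic zero it exists by the theorem of Bittner, since both
dimensions are compatible with blow-ups.) -/
structure IsPeriodDefect (D : DeRham W F) (δ : Sch k → ℤ → ℤ) : Prop extends Additive δ where
  inside : ∀ (X : 𝒱.Obj) (q : ℕ),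
    δ (sch X.V) q = (dimOf W {c | IsDRB D X q c} : ℤ) - dimOf W (algClasses W X q)
  outside : ∀ (X : 𝒱.Obj) (c : ℤ), c < 0 → δ (sch X.V) c = 0

/-- The Grothendieck period conjecture for `X`, in all codimensions. -/
def PeriodConj (D : DeRham W F) (X : 𝒱.Obj) : Prop :=
  ∀ j c, IsDRB D X j c → c ∈ Submodule.span W.K (algClasses W X j)

/-- The variety `X` has a divisor with hard Lefschetz. -/
def HasLefschetz (W : WeilCohomology.{0, v} ops) : Prop :=
  ∀ X : 𝒱.Obj, ∃ D : X.Cycles, X.IsCyc 1 D ∧ HardLefschetz W X D

end Pool.Agent.W5h93.EV
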