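import Pool.Agent.W5h93.EV.Conv
import Pool.Agent.W5h93.EV.GDefs
import Pool.Agent.Y133.Half.Per

/-!
# The Grothendieck period conjecture and trilinear forms
-/

set_option autoImplicit false

open CategoryTheory AlgebraicGeometry Pool.Agent.Y116.UV

universe v

namespace Pool.Agent.W5h93.EV

open Pool.Agent.H914 Pool.Agent.H914.VarClass Pool.Agent.H914.VarClass.Obj
  Pool.Agent.H914.WeilCohomology Pool.Agent.W534 Pool.Agent.Y133.Per
open Pool.Agent.Y133.Half (dimOf)

variable {k : Type} [Field k] {𝒱 : VarClass k} {ops : CycleOps 𝒱}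
  {W : WeilCohomology.{0, v} ops} {δ : Sch k → ℤ → ℤ}

lemma span_alg (X : 𝒱.Obj) (j : ℕ) : Submodule.span W.K (algClasses W X j) = spanCycles W X j := by
  refine le_antisymm (Submodule.span_le.mpr ?_) (Submodule.span_le.mpr ?_)
  · rintro _ ⟨z, hz, rfl⟩
    exact Submodule.subset_span ⟨j, rfl, z, hz, rfl⟩
  · rintro _ ⟨p, hp, z, hz, rfl⟩
    obtain rfl : p = j := by exact_mod_cast hp
    exact Submodule.subset_span ⟨z, hz, rfl⟩

lemma dimOf_alg (X : 𝒱.Obj) (j : ℕ) : dimOf W (algClasses W X j) = cycleRank W X j := by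
  rw [dimOf, Set.finrank, span_alg, cycleRank]

variable [Algebra W.K ℂ] {F : Subfield ℂ} {D : DeRham W F}

/-- the space of the de Rham-Betti classes -/
def drbSpace (D : DeRham W F) (X : 𝒱.Obj) (j : ℕ) : Submodule W.K (W.H X) where
  carrier := {c | IsDRB D X j c}
  zero_mem' := IsDRB.zero
  add_mem' := IsDRB.add
  smul_mem' r _ h := IsDRB.smul r h

lemma dimOf_drb (X : 𝒱.Obj) (j : ℕ) :
    dimOf W {c | IsDRB D X j c} = Module.finrank W.K (drbSpace D X j) := by
  have h1 : Submodule.span W.K {c | IsDRB D X j c} = drbSpace D X j :=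
    Submodule.span_eq (drbSpace D X j)
  rw [dimOf, Set.finrank, h1]

lemma span_le_drb (X : 𝒱.Obj) (j : ℕ) : spanCycles W X j ≤ drbSpace D X j := by
  rw [← span_alg, Submodule.span_le]
  rintro _ ⟨z, hz, rfl⟩
  exact IsDRB.cl hz

/-- the period conjecture is the vanishing of the invariant -/
lemma period_zero_iff (h : IsPeriodDefect D δ) (X : 𝒱.Obj) :
    (∀ c, δ (sch X.V) c = 0) ↔ PeriodConj D X := by
  have h1 := EU.cls_zero_iff (W := W) (δ := δ) (drbSpace D) span_le_drb
    (fun X q => by
      have := h.inside X q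
      rwa [dimOf_drb, dimOf_alg] at this) h.outside X
  refine h1.trans (forall_congr' fun j => ?_)
  rw [span_alg]
  rfl

/-- **Products.** -/
theorem period_products [PerfectField k] (h : IsPeriodDefect D δ) {n N : ℕ} (hM : HasModels 𝒱 n) :
    ForProducts (PeriodConj D) N n ↔ Vanishes δ N (n + 2) := by
  rw [← products_iff h.toAdditive hM]
  have h1 : (fun X : 𝒱.Obj => ∀ c, δ (sch X.V) c = 0) = PeriodConj D :=
    funext fun X => propext (period_zero_iff h X)
  rw [h1]

/-- **All varieties.** -/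
theorem period_all [PerfectField k] (h : IsPeriodDefect D δ) (hM : ∀ n, HasModels 𝒱 n) :
    (∀ X : 𝒱.Obj, PeriodConj D X) ↔ VanishesAll δ := by
  rw [← all_iff h.toAdditive hM]
  exact forall_congr' fun X => (period_zero_iff h X).symm

/-- The period conjecture for curves. -/
theorem period_one (hL : HasLefschetz W) {X : 𝒱.Obj} (hX : X.dim ≤ 1) : PeriodConj D X := by
  intro j c hc
  rw [span_alg]
  obtain ⟨E, hE, hLE⟩ := hL X
  rcases Nat.eq_zero_or_pos j with rfl | hj
  · exact EU.gr_zero_le X hc.1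
  · by_cases hj1 : j = X.dim
    · subst hj1
      exact EU.gr_top_le hE hLE hc.1
    · have h1 := hc.1
      rw [W.gr_eq_bot X _ (by omega), Submodule.mem_bot] at h1
      rw [h1]
      exact Submodule.zero_mem _

end Pool.Agent.W5h93.EV
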