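import Pool.Agent.W5h93.EV.Defs
import Pool.Agent.H914R2.Weil

/-!
# Additive invariants of schemes and classes of varieties: definitions
-/

set_option autoImplicit false

open CategoryTheory AlgebraicGeometry Pool.Agent.Y116.UV

namespace Pool.Agent.W5h93.EV

open Pool.Agent.H914 Pool.Agent.H914.VarClass Pool.Agent.H914.VarClass.Obj

variable {k : Type} [Field k]

/-- The variety `X` as a scheme over `k`. -/
noncomputable def sch (X : SmVar k) : Sch k := Over.mk X.str

/-- The dimension of the variety `X` is at most `n`: this is required for the relative dimension and for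
the Krull dimension, which are equal. -/
def DimLE (X : SmVar k) (n : ℕ) : Prop := X.dim ≤ n ∧ topologicalKrullDim X.X ≤ n

/-- Every integral affine scheme of finite type over `k` of dimension `d ≤ n` is birational to a variety
of the class `𝒱` of dimension `d`. (For the class of the smooth projective varieties over an
algebraically closed field this is the theorem of Hironaka in characteristic zero; it is known for
`n ≤ 3` in all characteristics.) -/
def HasModels (𝒱 : VarClass k) (n : ℕ) : Prop :=
  ∀ (A : Type) [CommRing A] [IsDomain A] [Algebra k A] [Algebra.FiniteType k A] (d : ℕ), d ≤ n →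
    ringKrullDim A = d →
      ∃ X : 𝒱.Obj, Birational (aff k A) (sch X.V) ∧ X.dim = d ∧ topologicalKrullDim X.V.X = d

/-- The product `X_0 × ⋯ × X_r` of the variety `X_0 = X` and the varieties in the list
`X_1, …, X_r`. -/
noncomputable def prodVars {𝒱 : VarClass k} : 𝒱.Obj → List 𝒱.Obj → 𝒱.Obj
  | X, [] => X
  | X, Y :: L => X.prod (prodVars Y L)

/-- The property `P` is true for all products of at most `N + 1` varieties of the class, each of
dimension at most `n`. -/
def ForProducts {𝒱 : VarClass k} (P : 𝒱.Obj → Prop) (N n : ℕ) : Prop :=
  ∀ (X : 𝒱.Obj) (L : List 𝒱.Obj), DimLE X.V n → (∀ Y ∈ L, DimLE Y.V n) → L.length ≤ N →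
    P (prodVars X L)

end Pool.Agent.W5h93.EV
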